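import Pool.Agent.P.MP_709c52_lc.RO.Gate

set_option autoImplicit false

namespace Pool.Agent.Results.MP_709c52_lc.Gates

open Finset Pool.Agent.P.MP_709c52_lc

universe u

/-- An assignment of `n` requests to `m` sites uses every site at most `k` times. -/
def Feasible {m n : ℕ} (k : ℕ) (o : Fin n → Fin m) : Prop :=
  ∀ j : Fin m, (univ.filter fun i : Fin n => o i = j).card ≤ k

/-- Total distance paid by an assignment of the requests `r` to the sites `s`. -/
noncomputable def cost {m n : ℕ} {N : Type u} [MetricSpace N] (s : Fin m → N) (r : Fin n → N)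
    (o : Fin n → Fin m) : ℝ :=
  ∑ i : Fin n, dist (s (o i)) (r i)

/-- The offline optimum: least cost of a feasible assignment. -/
noncomputable def opt {m n : ℕ} {N : Type u} [MetricSpace N] (s : Fin m → N) (k : ℕ)
    (r : Fin n → N) : ℝ :=
  sInf {x : ℝ | ∃ o : Fin n → Fin m, Feasible k o ∧ x = cost s r o}

/-- A deterministic online algorithm for `m` sites: knowing the metric space, the sites and the
capacity, it chooses a site from the `i` earlier requests and the current request. -/
def Alg (m : ℕ) : Type (u + 1) :=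
  (N : Type u) → [MetricSpace N] → (Fin m → N) → ℕ → (i : ℕ) → (Fin i → N) → N → Fin m

/-- The assignment that the algorithm produces on the request sequence `r`. -/
def run {m n : ℕ} (A : Alg.{u} m) {N : Type u} [MetricSpace N] (s : Fin m → N) (k : ℕ)
    (r : Fin n → N) : Fin n → Fin m :=
  fun i => A N s k i (fun j => r (j.castLE i.isLt.le)) (r i)

/-- There are `h` points of the space (gates) and an optimal assignment in which every request has
a gate on a shortest way to its site. -/
def Gated {m n : ℕ} {N : Type u} [MetricSpace N] (s : Fin m → N) (k : ℕ) (r : Fin n → N) (h : ℕ) :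
    Prop :=
  ∃ (C : Fin h → N) (o : Fin n → Fin m), Feasible k o ∧ cost s r o = opt s k r ∧
    ∀ i, ∃ j, dist (s (o i)) (C j) + dist (C j) (r i) = dist (s (o i)) (r i)

/-- `A` respects the capacity and pays at most `c` times the optimum on instances with `h` gates. -/
def GateCompetitive {m : ℕ} (A : Alg.{u} m) (k h : ℕ) (c : ℝ) : Prop :=
  ∀ (N : Type u) [MetricSpace N] (s : Fin m → N) (n : ℕ) (r : Fin n → N), n ≤ k * m →
    Gated s k r h → Feasible k (run A s k r) ∧ cost s r (run A s k r) ≤ c * opt s k r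

/-- The same on the instances whose requests lie in at most `h` points. -/
def PointCompetitive {m : ℕ} (A : Alg.{u} m) (k h : ℕ) (c : ℝ) : Prop :=
  ∀ (N : Type u) [MetricSpace N] (s : Fin m → N) (n : ℕ) (r : Fin n → N), n ≤ k * m →
    (Set.range r).ncard ≤ h → Feasible k (run A s k r) ∧ cost s r (run A s k r) ≤ c * opt s k r

lemma fin_costs {m n : ℕ} {N : Type u} [MetricSpace N] (s : Fin m → N) (k : ℕ) (r : Fin n → N) :
    {x : ℝ | ∃ o : Fin n → Fin m, Feasible k o ∧ x = cost s r o}.Finite :=
  (Set.finite_range (cost s r)).subset fun _ ⟨o, _, h⟩ => ⟨o, h.symm⟩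

lemma upper (m : ℕ) (hm : 1 ≤ m) : ∃ A : Alg.{u} m, ∀ k h : ℕ,
    GateCompetitive A k h (2 * h - 1) := by
  have : Nonempty (Fin m) := ⟨⟨0, hm⟩⟩
  choose pick hp using H99.exists_pick (V := Fin m)
  refine ⟨fun N _ s k => RO.alg (pick k) s, fun k h N _ s n r hn ⟨C, o, ho, e, hC⟩ => ?_⟩
  choose v hv using hC
  refine ⟨RO.alg_feas (hp k) s r (by simpa using hn) (s ⟨0, hm⟩), ?_⟩
  obtain ⟨o', ho', h1⟩ := RO.gate (hp k) s C r (by simpa using hn) (s ⟨0, hm⟩) ⟨0, hm⟩ v o ho
  have h2 : opt s k r ≤ cost s r o' := csInf_le (fin_costs s k r).bddBelow ⟨o', ho', rfl⟩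
  have h3 : ∀ i, 2 * dist (C (v i)) (r i) +
      ∑ c, (dist (s (o i)) (r i) + dist (C c) (s (o i)) - dist (C c) (r i)) ≤
      2 * h * dist (s (o i)) (r i) := fun i => by
    have c1 := sum_le_card_nsmul (univ.erase (v i))
      (fun c => dist (s (o i)) (r i) + dist (C c) (s (o i)) - dist (C c) (r i))
      (2 * dist (s (o i)) (r i)) fun c _ => by
        linarith [dist_triangle_right (C c) (s (o i)) (r i)]
    rw [card_erase_of_mem (mem_univ _), card_univ, Fintype.card_fin, nsmul_eq_mul,
      Nat.cast_sub (v i).pos, Nat.cast_one] at c1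
    rw [← sum_erase_add _ _ (mem_univ (v i)), dist_comm (C (v i)) (s (o i))]
    linarith [hv i]
  have h4 := h1.trans (sum_le_sum fun i _ => h3 i)
  rw [← mul_sum] at h4
  rw [← e] at h2 ⊢
  simp only [cost, run] at h2 ⊢
  linarith

lemma lower {m k h : ℕ} (hk : 1 ≤ k) (hh : h + 1 ≤ m) (B : Alg.{u} m) (c : ℝ)
    (hB : PointCompetitive B k (h + 1) c) : 2 * h + 1 ≤ c := by
  classical
  let N := ULift.{u} (Fin m → ℝ)
  let s : Fin m → N := fun a => ⟨fun b => if a = b then 1 else -1⟩
  have d0 : ∀ a, dist (s a) ⟨0⟩ = 1 := fun a => by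
    change dist (fun b => if a = b then (1 : ℝ) else -1) 0 = 1
    refine le_antisymm ((dist_pi_le_iff zero_le_one).2 fun b => ?_) ?_
    · split_ifs <;> simp
    · simpa using dist_le_pi_dist (fun b => if a = b then (1 : ℝ) else -1) 0 a
  have d1 : ∀ a b, a ≠ b → 2 ≤ dist (s a) (s b) := fun a b hab => by
    have := dist_le_pi_dist (fun c => if a = c then (1 : ℝ) else -1)
      (fun c => if b = c then (1 : ℝ) else -1) a
    simp only [if_true, if_neg hab.symm, Real.dist_eq] at this
    norm_num at this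
    exact this
  let R : ℕ → N := H99.cruel s (B N s k) ⟨0⟩
  let a : ℕ → Fin m := fun i => B N s k i (fun j => R j) (R i)
  have r0 : R 0 = ⟨0⟩ := by simp [R, H99.cruel]
  have r1 : ∀ i, R (i + 1) = s (a i) := fun i => by
    simp only [R, a]
    rw [H99.cruel]
  let ch : ℕ → ℕ := fun n => ((range n).filter fun i => a (i + 1) ≠ a i).card
  have key : ∀ n, n ≤ k * h → (∀ l < n, ch l < h) →
      Feasible k (fun i : Fin (n + 1) => a i) ∧ cost s (fun i : Fin (n + 1) => R i)
        (fun i => a i) ≤ c * opt s k fun i : Fin (n + 1) => R i := fun n hn hl => by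
    refine hB N s (n + 1) (fun i => R i) (by nlinarith) ?_
    have h1 : (Set.range fun i : Fin (n + 1) => R i) ⊆
        ↑(insert (⟨0⟩ : N) (((range n).image a).image s)) := by
      rintro _ ⟨i, rfl⟩
      induction i using Fin.cases with
      | zero => simp [r0]
      | succ i => simpa [r1] using .inr ⟨i, i.isLt, rfl⟩
    refine (Set.ncard_le_ncard h1).trans ?_
    rw [Set.ncard_coe_finset]
    refine (card_insert_le _ _).trans (Nat.succ_le_succ (card_image_le.trans ?_))
    rcases n with _ | n
    · simp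
    · exact (RO.card_values a n).trans (hl n n.lt_succ_self)
  have ex : ∃ n, n ≤ k * h ∧ h ≤ ch n := by
    by_contra x
    push Not at x
    have h1 := (key _ le_rfl fun l hl => x l hl.le).1
    have h2 := card_le_mul_card_image_of_maps_to (f := fun i : Fin (k * h + 1) => a i) (s := univ)
      (t := (range (k * h + 1)).image a)
      (fun i _ => mem_image_of_mem _ (mem_range.2 i.isLt)) k fun v _ => h1 v
    have h3 := Nat.mul_le_mul_left k ((RO.card_values a _).trans (x _ le_rfl))
    rw [card_univ, Fintype.card_fin] at h2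
    omega
  obtain ⟨n1, n2⟩ := Nat.find_spec ex
  have n3 : ∀ l < Nat.find ex, ch l < h := fun l hl =>
    not_le.1 fun x => Nat.find_min ex hl ⟨hl.le.trans n1, x⟩
  generalize Nat.find ex = n at n1 n2 n3
  obtain ⟨h1, h2⟩ := key n n1 n3
  have c1 : 2 * (ch n : ℝ) + 1 ≤ cost s (fun i : Fin (n + 1) => R i) fun i => a i := by
    rw [cost, ← Finset.sum_range fun i => dist (s (a i)) (R i), sum_range_succ', r0, d0]
    have e1 := card_nsmul_le_sum ((range n).filter fun i => a (i + 1) ≠ a i)
      (fun i => dist (s (a (i + 1))) (R (i + 1))) 2 fun i hi => r1 i ▸ d1 _ _ (mem_filter.1 hi).2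
    have e2 := sum_le_sum_of_subset_of_nonneg (filter_subset (fun i => a (i + 1) ≠ a i) (range n))
      (f := fun i => dist (s (a (i + 1))) (R (i + 1))) fun _ _ _ => dist_nonneg
    rw [nsmul_eq_mul] at e1
    linarith
  let o : Fin (n + 1) → Fin m := fun i => a (Fin.cases (Fin.last n) Fin.castSucc i : Fin (n + 1))
  have c2 : (opt s k fun i : Fin (n + 1) => R i) ≤ 1 := by
    refine (csInf_le (fin_costs s k _).bddBelow ⟨o, fun j => ?_, rfl⟩).trans ?_
    · refine le_of_eq_of_le ?_ (h1 j)
      rw [card_filter, card_filter, Fin.sum_univ_succ, Fin.sum_univ_castSucc, add_comm]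
      rfl
    · rw [cost, Fin.sum_univ_succ]
      simp [o, r0, r1, d0]
  have c3 : 0 ≤ opt s k fun i : Fin (n + 1) => R i := Real.sInf_nonneg fun x ⟨o, _, e⟩ =>
    e ▸ sum_nonneg fun _ _ => dist_nonneg
  have c4 : (h : ℝ) ≤ ch n := by exact_mod_cast n2
  have c5 : (0 : ℝ) ≤ h := Nat.cast_nonneg _
  by_contra hc
  rcases le_total 0 c with h0 | h0 <;> nlinarith

/-- For `1 ≤ h ≤ m` the deterministic competitive ratio on instances with `h` gates is exactly
`2 h - 1`: one algorithm attains it for all `k` and `h`, and no algorithm does better even if the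
requests lie in at most `h` points. -/
theorem result (m : ℕ) (hm : 1 ≤ m) : ∃ A : Alg.{u} m, ∀ k h : ℕ, 1 ≤ k → 1 ≤ h → h ≤ m →
    GateCompetitive A k h (2 * h - 1) ∧
      ∀ (B : Alg.{u} m) (c : ℝ), PointCompetitive B k h c → 2 * h - 1 ≤ c := by
  obtain ⟨A, hA⟩ := upper.{u} m hm
  refine ⟨A, fun k h hk h1 hh => ⟨hA k h, fun B c hB => ?_⟩⟩
  obtain ⟨h, rfl⟩ : ∃ l, h = l + 1 := ⟨h - 1, by omega⟩
  have := lower hk hh B c hB
  push_cast
  linarith

end Pool.Agent.Results.MP_709c52_lc.Gates
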