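import Pool.Agent.P.MP_709c52_lc.H99.Load

set_option autoImplicit false

namespace Pool.Agent.Results.MP_709c52_lc.Load

open Finset Pool.Agent.P.MP_709c52_lc

universe u

/-- An assignment of `n` requests to `m` sites uses every site at most `k` times. -/
def Feasible {m n : ℕ} (k : ℕ) (o : Fin n → Fin m) : Prop :=
  ∀ j : Fin m, (univ.filter fun i : Fin n => o i = j).card ≤ k

/-- Total distance paid by an assignment of the requests `r` to the sites `s`. -/
noncomputable def cost {m n : ℕ} {N : Type u} [MetricSpace N] (s : Fin m → N) (r : Fin n → N)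
    (o : Fin n → Fin m) : ℝ :=
  ∑ i : Fin n, dist (s (o i)) (r i)

/-- The offline optimum: least cost of a feasible assignment. -/
noncomputable def opt {m n : ℕ} {N : Type u} [MetricSpace N] (s : Fin m → N) (k : ℕ)
    (r : Fin n → N) : ℝ :=
  sInf {x : ℝ | ∃ o : Fin n → Fin m, Feasible k o ∧ x = cost s r o}

/-- A deterministic online algorithm for `m` sites: knowing the metric space, the sites and the
capacity, it chooses a site from the `i` earlier requests and the current request. -/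
def Alg (m : ℕ) : Type (u + 1) :=
  (N : Type u) → [MetricSpace N] → (Fin m → N) → ℕ → (i : ℕ) → (Fin i → N) → N → Fin m

/-- The assignment that the algorithm produces on the request sequence `r`. -/
def run {m n : ℕ} (A : Alg.{u} m) {N : Type u} [MetricSpace N] (s : Fin m → N) (k : ℕ)
    (r : Fin n → N) : Fin n → Fin m :=
  fun i => A N s k i (fun j => r (j.castLE i.isLt.le)) (r i)

/-- `A` respects the capacity and pays at most `c` times the optimum on every instance with `m`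
sites, capacity `k` and `n` requests, over all metric spaces. -/
def Competitive {m : ℕ} (A : Alg.{u} m) (k n : ℕ) (c : ℝ) : Prop :=
  ∀ (N : Type u) [MetricSpace N] (s : Fin m → N) (r : Fin n → N),
    Feasible k (run A s k r) ∧ cost s r (run A s k r) ≤ c * opt s k r

lemma fin_costs {m n : ℕ} {N : Type u} [MetricSpace N] (s : Fin m → N) (k : ℕ) (r : Fin n → N) :
    {x : ℝ | ∃ o : Fin n → Fin m, Feasible k o ∧ x = cost s r o}.Finite :=
  (Set.finite_range (cost s r)).subset fun _ ⟨o, _, h⟩ => ⟨o, h.symm⟩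

lemma upper (m : ℕ) (hm : 1 ≤ m) : ∃ A : Alg.{u} m, ∀ k n j : ℕ, 1 ≤ n → n ≤ k * m → n ≤ k * j →
    Competitive A k n (2 * j - 1) := by
  have : Nonempty (Fin m) := ⟨⟨0, hm⟩⟩
  have h := fun (N : Type u) (_ : MetricSpace N) (s : Fin m → N) (k : ℕ) => H99.online' s k
  choose A hA using h
  refine ⟨fun N i s k => A N i s k, fun k n j h0 hn hj N i s r => ?_⟩
  obtain ⟨h1, h2⟩ := hA N i s k n r (by simpa using hn)
  refine ⟨h1, ?_⟩
  obtain ⟨o, ho, e⟩ := Set.Nonempty.csInf_mem
    (s := {x : ℝ | ∃ o : Fin n → Fin m, Feasible k o ∧ x = cost s r o}) ⟨_, _, h1, rfl⟩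
    (fin_costs s k r)
  rw [opt, e]
  exact h2 j h0 hj o ho

lemma lower {m k n : ℕ} (A : Alg.{u} m) (c : ℝ) (h : Competitive A k (n + 1) c) :
    ∃ j : ℕ, n + 1 ≤ k * j ∧ 2 * j - 1 ≤ c := by
  let N := ULift.{u} (Fin m → ℝ)
  let s : Fin m → N := fun a => ⟨fun b => if a = b then 1 else -1⟩
  have d0 : ∀ a, dist (s a) ⟨0⟩ = 1 := fun a => by
    change dist (fun b => if a = b then (1 : ℝ) else -1) 0 = 1
    refine le_antisymm ((dist_pi_le_iff zero_le_one).2 fun b => ?_) ?_
    · split_ifs <;> simp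
    · simpa using dist_le_pi_dist (fun b => if a = b then (1 : ℝ) else -1) 0 a
  have d1 : ∀ a b, a ≠ b → 2 ≤ dist (s a) (s b) := fun a b hab => by
    have := dist_le_pi_dist (fun c => if a = c then (1 : ℝ) else -1)
      (fun c => if b = c then (1 : ℝ) else -1) a
    simp only [if_true, if_neg hab.symm, Real.dist_eq] at this
    norm_num at this
    exact this
  let R : ℕ → N := H99.cruel s (A N s k) ⟨0⟩
  let r : Fin (n + 1) → N := fun i => R i
  obtain ⟨h1, h2⟩ := h N s r
  set a := run A s k r with ha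
  have r0 : r 0 = ⟨0⟩ := by simp [r, R, H99.cruel]
  have r1 : ∀ i : Fin n, r i.succ = s (a i.castSucc) := fun i => by
    simp only [r, R, Fin.val_succ]
    rw [H99.cruel]
    rfl
  refine ⟨_, H99.changes a h1, ?_⟩
  set C := univ.filter fun i : Fin n => a i.succ ≠ a i.castSucc with hC
  have c1 : 2 * (C.card : ℝ) + 1 ≤ cost s r a := by
    rw [cost, Fin.sum_univ_succ, r0, d0]
    have e1 : ∑ _i ∈ C, (2 : ℝ) ≤ ∑ i ∈ C, dist (s (a i.succ)) (r i.succ) :=
      sum_le_sum fun i hi => by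
        rw [r1]
        exact d1 _ _ (mem_filter.1 hi).2
    have e2 : ∑ i ∈ C, dist (s (a i.succ)) (r i.succ) ≤ ∑ i : Fin n, dist (s (a i.succ)) (r i.succ) :=
      sum_le_sum_of_subset_of_nonneg (subset_univ _) fun _ _ _ => dist_nonneg
    simp only [sum_const, nsmul_eq_mul] at e1
    linarith
  let o : Fin (n + 1) → Fin m := fun i => a (Fin.cases (Fin.last n) Fin.castSucc i)
  have c2 : opt s k r ≤ 1 := by
    refine (csInf_le (fin_costs s k r).bddBelow ⟨o, fun j => ?_, rfl⟩).trans ?_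
    · refine le_of_eq_of_le ?_ (h1 j)
      rw [card_filter, card_filter, Fin.sum_univ_succ, Fin.sum_univ_castSucc, add_comm]
      rfl
    · rw [cost, Fin.sum_univ_succ, r0, d0]
      simp [o, r1]
  have c3 : 0 ≤ opt s k r := Real.sInf_nonneg fun x ⟨o, _, e⟩ =>
    e ▸ sum_nonneg fun _ _ => dist_nonneg
  have c4 : (0 : ℝ) ≤ C.card := Nat.cast_nonneg _
  push_cast
  by_contra hc
  rcases le_total 0 c with h0 | h0 <;> nlinarith

/-- With `m` sites, capacity `k` and `n ≤ k m` requests the deterministic competitive ratio is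
exactly `2 ⌈n / k⌉ - 1`, and one algorithm attains it for all `k` and `n`. -/
theorem result (m : ℕ) (hm : 1 ≤ m) : ∃ A : Alg.{u} m, ∀ k n : ℕ, 1 ≤ k → 1 ≤ n → n ≤ k * m →
    Competitive A k n (2 * ⌈(n : ℝ) / k⌉ - 1) ∧
      ∀ (B : Alg.{u} m) (c : ℝ), Competitive B k n c → 2 * ⌈(n : ℝ) / k⌉ - 1 ≤ c := by
  obtain ⟨A, hA⟩ := upper.{u} m hm
  refine ⟨A, fun k n hk h1 hn => ?_⟩
  have k0 : (0 : ℝ) < k := by exact_mod_cast hk
  have e : (⌈(n : ℝ) / k⌉ : ℝ) = (⌈(n : ℝ) / k⌉₊ : ℕ) := by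
    rw [← Int.natCast_ceil_eq_ceil (by positivity), Int.cast_natCast]
  rw [e]
  refine ⟨hA k n _ h1 hn ?_, fun B c h => ?_⟩
  · have := (div_le_iff₀ k0).1 (Nat.le_ceil ((n : ℝ) / k))
    rw [mul_comm] at this
    exact_mod_cast this
  · obtain ⟨n, rfl⟩ : ∃ l, n = l + 1 := ⟨n - 1, by omega⟩
    obtain ⟨j, h2, h3⟩ := lower B c h
    have h4 : ⌈((n + 1 : ℕ) : ℝ) / k⌉₊ ≤ j := Nat.ceil_le.2 ((div_le_iff₀ k0).2 (by
      rw [mul_comm]
      exact_mod_cast h2))
    have h5 : (⌈((n + 1 : ℕ) : ℝ) / k⌉₊ : ℝ) ≤ j := by exact_mod_cast h4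
    linarith

end Pool.Agent.Results.MP_709c52_lc.Load
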