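import Pool.Agent.P.MP_709c52_lc.RO.Main

set_option autoImplicit false

namespace Pool.Agent.Results.MP_709c52_lc.RandomOrder

open Finset Pool.Agent.P.MP_709c52_lc

universe u

/-- An assignment of `n` requests to `m` sites uses every site at most `k` times. -/
def Feasible {m n : ℕ} (k : ℕ) (o : Fin n → Fin m) : Prop :=
  ∀ j : Fin m, (univ.filter fun i : Fin n => o i = j).card ≤ k

/-- Total distance paid by an assignment of the requests `r` to the sites `s`. -/
noncomputable def cost {m n : ℕ} {N : Type u} [MetricSpace N] (s : Fin m → N) (r : Fin n → N)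
    (o : Fin n → Fin m) : ℝ :=
  ∑ i : Fin n, dist (s (o i)) (r i)

/-- The offline optimum: least cost of a feasible assignment. -/
noncomputable def opt {m n : ℕ} {N : Type u} [MetricSpace N] (s : Fin m → N) (k : ℕ)
    (r : Fin n → N) : ℝ :=
  sInf {x : ℝ | ∃ o : Fin n → Fin m, Feasible k o ∧ x = cost s r o}

/-- A deterministic online algorithm for `m` sites: knowing the metric space, the sites and the
capacity, it chooses a site from the `i` earlier requests and the current request. -/
def Alg (m : ℕ) : Type (u + 1) :=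
  (N : Type u) → [MetricSpace N] → (Fin m → N) → ℕ → (i : ℕ) → (Fin i → N) → N → Fin m

/-- The assignment that the algorithm produces on the request sequence `r`. -/
def run {m n : ℕ} (A : Alg.{u} m) {N : Type u} [MetricSpace N] (s : Fin m → N) (k : ℕ)
    (r : Fin n → N) : Fin n → Fin m :=
  fun i => A N s k i (fun j => r (j.castLE i.isLt.le)) (r i)

/-- `A` respects the capacity, and on every instance with `m` sites, capacity `k` and `n` requests,
over all metric spaces, its cost averaged over the `n !` arrival orders is at most `c` times the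
optimum. -/
def RandomCompetitive {m : ℕ} (A : Alg.{u} m) (k n : ℕ) (c : ℝ) : Prop :=
  ∀ (N : Type u) [MetricSpace N] (s : Fin m → N) (r : Fin n → N), Feasible k (run A s k r) ∧
    (∑ σ : Equiv.Perm (Fin n), cost s (r ∘ σ) (run A s k (r ∘ σ))) / n.factorial ≤ c * opt s k r

lemma fin_costs {m n : ℕ} {N : Type u} [MetricSpace N] (s : Fin m → N) (k : ℕ) (r : Fin n → N) :
    {x : ℝ | ∃ o : Fin n → Fin m, Feasible k o ∧ x = cost s r o}.Finite :=
  (Set.finite_range (cost s r)).subset fun _ ⟨o, _, h⟩ => ⟨o, h.symm⟩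

lemma upper (m : ℕ) (hm : 1 ≤ m) : ∃ A : Alg.{u} m, ∀ k n q : ℕ, 1 ≤ n → n ≤ k * m → n ≤ k * q →
    RandomCompetitive A k n (17 + 12 * Real.log q) := by
  have : Nonempty (Fin m) := ⟨⟨0, hm⟩⟩
  choose pick hp using H99.exists_pick (V := Fin m)
  refine ⟨fun N _ s k => RO.alg (pick k) s, fun k n q h0 hn hq N _ s r => ?_⟩
  have h1 := RO.alg_feas (hp k) s r (by simpa using hn) (r ⟨0, h0⟩)
  obtain ⟨o, ho, e⟩ := Set.Nonempty.csInf_mem
    (s := {x : ℝ | ∃ o : Fin n → Fin m, Feasible k o ∧ x = cost s r o}) ⟨_, _, h1, rfl⟩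
    (fin_costs s k r)
  refine ⟨h1, ?_⟩
  rw [opt, e, div_le_iff₀' (by exact_mod_cast n.factorial_pos)]
  exact RO.alg_avg (hp k) s r (by simpa using hn) h0 hq o ho fun o' ho' =>
    e.symm.trans_le (csInf_le (fin_costs s k r).bddBelow ⟨o', ho', rfl⟩)

/-- One deterministic algorithm is `(17 + 12 log ⌈n / k⌉)`-competitive in the random order model,
for all capacities `k` and all `n ≤ k m`. -/
theorem result (m : ℕ) (hm : 1 ≤ m) : ∃ A : Alg.{u} m, ∀ k n : ℕ, 1 ≤ k → 1 ≤ n → n ≤ k * m →
    RandomCompetitive A k n (17 + 12 * Real.log ⌈(n : ℝ) / k⌉) := by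
  obtain ⟨A, hA⟩ := upper.{u} m hm
  refine ⟨A, fun k n hk h1 hn => ?_⟩
  have k0 : (0 : ℝ) < k := by exact_mod_cast hk
  have e : (⌈(n : ℝ) / k⌉ : ℝ) = (⌈(n : ℝ) / k⌉₊ : ℕ) := by
    rw [← Int.natCast_ceil_eq_ceil (by positivity), Int.cast_natCast]
  rw [e]
  refine hA k n _ h1 hn ?_
  have := (div_le_iff₀' k0).1 (Nat.le_ceil ((n : ℝ) / k))
  exact_mod_cast this

end Pool.Agent.Results.MP_709c52_lc.RandomOrder
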